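import Mathlib
import Pool.Graph.R_pool_sql_team_39128cda.H.MP_440a65_co.A

/-!
# Imbalances of a labelling: the main inequality
-/

set_option autoImplicit false

namespace Pool.Agent.KS6_80.IM

open Finset Pool.Agent.H.MP_440a65_co

/-- The imbalance of an unordered pair for the labelling `f`. -/
def imb {V : Type} (f : V → ℤ) : Sym2 V → ℕ :=
  Sym2.lift ⟨fun u v => (f u - f v).natAbs, fun u v => by
    show (f u - f v).natAbs = (f v - f u).natAbs
    omega⟩

lemma imb_mk {V : Type} (f : V → ℤ) (u v : V) : imb f s(u, v) = (f u - f v).natAbs := rfl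

lemma arith1 (a b y z k : ℕ) (h : a + b ≤ y + 1 + z) (hz : z ≤ k) (hk : a + b = 0 ∨ 2 ≤ k) :
    a * b ≤ (a + b) * y + (k - 1) * z := by
  rcases hk with hk | hk
  · have : a = 0 := by omega
    subst this; simp
  obtain ⟨k, rfl⟩ : ∃ m, k = m + 1 := ⟨k - 1, by omega⟩
  rw [Nat.add_sub_cancel]
  have h4 : 4 * (a * b) ≤ (a + b) * (a + b) := by nlinarith [sq_nonneg ((a : ℤ) - b)]
  by_cases hy : a + b ≤ 4 * y
  · have : (a + b) * (a + b) ≤ (a + b) * (4 * y) := Nat.mul_le_mul_left _ hy
    nlinarith [Nat.zero_le (k * z)]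
  · have h5 : (a + b) * (a + b) ≤ 4 * ((a + b) * y) + (z + 1) * (z + 1) := by
      set s := a + b
      have h6 : (s : ℤ) ≤ y + 1 + z := by exact_mod_cast h
      have h7 : 4 * (y : ℤ) < s := by push Not at hy; exact_mod_cast hy
      have h8 : (s : ℤ) * (s - 4 * y) ≤ (y + 1 + z) * (y + 1 + z - 4 * y) :=
        mul_le_mul h6 (by linarith) (by linarith) (by positivity)
      have h9 : (0 : ℤ) ≤ y := by positivity
      have h10 : (0 : ℤ) ≤ z := by positivity
      have : (s : ℤ) * s ≤ 4 * (s * y) + (z + 1) * (z + 1) := by nlinarith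
      exact_mod_cast this
    have h6 : (z + 1) * (z + 1) ≤ 4 * (k * z) + 3 := by
      rcases Nat.lt_or_ge z 3 with hz3 | hz3
      · interval_cases z <;> omega
      · have : (z - 1) * z ≤ k * z := Nat.mul_le_mul_right _ (by omega)
        obtain ⟨t, rfl⟩ : ∃ t, z = t + 3 := ⟨z - 3, by omega⟩
        have e : t + 3 - 1 = t + 2 := by omega
        rw [e] at this
        nlinarith
    omega

lemma arith2 (a b y z k : ℕ) (h : a + b ≤ y + 1 + z) (hz : z ≤ k) (hk : a + b = 0 ∨ 2 ≤ k) :
    a * b + z ≤ (a + b) * y + (k - 1) * z + 2 := by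
  rcases Nat.lt_or_ge k 2 with hk2 | hk2
  · have : a = 0 := by omega
    subst this
    simp only [zero_mul, zero_add]
    have : z ≤ 2 := by omega
    omega
  obtain ⟨k, rfl⟩ : ∃ m, k = m + 2 := ⟨k - 2, by omega⟩
  have e0 : k + 2 - 1 = k + 1 := by omega
  rw [e0]
  have h4 : 4 * (a * b) ≤ (a + b) * (a + b) := by nlinarith [sq_nonneg ((a : ℤ) - b)]
  have e1 : (k + 1) * z = k * z + z := by ring
  rw [e1]
  by_cases hy : a + b ≤ 4 * y
  · have : (a + b) * (a + b) ≤ (a + b) * (4 * y) := Nat.mul_le_mul_left _ hy
    nlinarith [Nat.zero_le (k * z)]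
  · have h5 : (a + b) * (a + b) ≤ 4 * ((a + b) * y) + (z + 1) * (z + 1) := by
      set s := a + b
      have h6 : (s : ℤ) ≤ y + 1 + z := by exact_mod_cast h
      have h7 : 4 * (y : ℤ) < s := by push Not at hy; exact_mod_cast hy
      have h8 : (s : ℤ) * (s - 4 * y) ≤ (y + 1 + z) * (y + 1 + z - 4 * y) :=
        mul_le_mul h6 (by linarith) (by linarith) (by positivity)
      have h9 : (0 : ℤ) ≤ y := by positivity
      have h10 : (0 : ℤ) ≤ z := by positivity
      have : (s : ℤ) * s ≤ 4 * (s * y) + (z + 1) * (z + 1) := by nlinarith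
      exact_mod_cast this
    have h6 : (z + 1) * (z + 1) ≤ 4 * (k * z) + 11 := by
      rcases Nat.lt_or_ge z 3 with hz3 | hz3
      · interval_cases z <;> omega
      · obtain ⟨t, rfl⟩ : ∃ t, z = t + 3 := ⟨z - 3, by omega⟩
        have : (t + 1) * (t + 3) ≤ k * (t + 3) := Nat.mul_le_mul_right _ (by omega)
        nlinarith
    omega

section
variable {V : Type} [Fintype V] [DecidableEq V] (G : SimpleGraph V) [DecidableRel G.Adj]
  (f : V → ℤ)

lemma card_inc (w : V) : (G.edgeFinset.filter (fun e => w ∈ e)).card = G.degree w := by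
  rw [← G.card_incidenceFinset_eq_degree, G.incidenceFinset_eq_filter]

/-- The main inequality. -/
lemma main_ineq (hG : ∀ u v, G.Adj u v → f u ≠ f v)
    (H1 : ∀ u v, G.Adj u v → f v - f u < G.degree v)
    (H2 : ∀ x u v, G.Adj x u → G.Adj x v → f v - f u < G.degree v)
    (x w0 : V) (hxw : G.Adj x w0) (hlt : f w0 < f x) (D : ℕ) (hD : imb f s(x, w0) + 1 = D)
    (S : Finset (Sym2 V)) (hS : S ⊆ G.edgeFinset)
    (hk1 : 1 ≤ S.card) (hi : ∀ e ∈ S, S.card ≤ imb f e) (hk : S.card + 1 ≤ D) :
    S.card * D ≤ ∑ e ∈ G.edgeFinset, min S.card (imb f e) := by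
  set k := S.card with hkd
  set N := G.neighborFinset x with hN
  have hDi : (D : ℤ) = f x - f w0 + 1 := by
    rw [imb_mk] at hD
    omega
  have hNadj : ∀ w, w ∈ N ↔ G.Adj x w := fun w => by
    rw [hN, SimpleGraph.mem_neighborFinset]
  have hNc : D ≤ N.card := by
    have := H1 w0 x hxw.symm
    rw [hN, SimpleGraph.card_neighborFinset_eq_degree]
    omega
  set badA := N.filter (fun w => imb f s(x, w) < k) with hbadA
  set good := N.filter (fun w => ¬ imb f s(x, w) < k) with hgood
  set E0 := G.edgeFinset.filter (fun e => ¬ x ∈ e) with hE0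
  have hinj : Set.InjOn (fun w => s(x, w)) (N : Set V) := by
    intro a _ b _ h
    exact Sym2.congr_right.1 h
  have hE1 : G.edgeFinset.filter (fun e => x ∈ e) = N.image (fun w => s(x, w)) := by
    ext e
    simp only [mem_filter, mem_image, hN, SimpleGraph.mem_neighborFinset,
      SimpleGraph.mem_edgeFinset]
    constructor
    · rintro ⟨he, hxe⟩
      obtain ⟨w, rfl⟩ := Sym2.mem_iff_exists.1 hxe
      exact ⟨w, he, rfl⟩
    · rintro ⟨w, hw, rfl⟩
      exact ⟨hw, Sym2.mem_mk_left _ _⟩
  have hsplit : ∑ e ∈ G.edgeFinset, min k (imb f e) =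
      ∑ w ∈ N, min k (imb f s(x, w)) + ∑ e ∈ E0, min k (imb f e) := by
    rw [← sum_filter_add_sum_filter_not G.edgeFinset (fun e => x ∈ e), hE1, sum_image hinj]
  have hcN : badA.card + good.card = N.card := by
    rw [hbadA, hgood, card_filter_add_card_filter_not]
  have hsplitN : ∑ w ∈ N, min k (imb f s(x, w)) =
      ∑ w ∈ badA, min k (imb f s(x, w)) + ∑ w ∈ good, min k (imb f s(x, w)) :=
    (sum_filter_add_sum_filter_not N (fun w => imb f s(x, w) < k) _).symm
  have hgoodsum : ∑ w ∈ good, min k (imb f s(x, w)) = good.card * k := by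
    rw [← smul_eq_mul, ← sum_const]
    refine sum_congr rfl fun w hw => ?_
    rw [hgood, mem_filter] at hw
    have := hw.2
    omega
  by_cases hgD : D ≤ good.card
  · have : k * D ≤ good.card * k := by
      rw [mul_comm]
      exact Nat.mul_le_mul_right _ hgD
    omega
  push Not at hgD
  obtain ⟨bad, hbadsub, hbadc⟩ := Finset.exists_subset_card_eq (s := badA)
    (n := D - good.card) (by omega)
  have hbadmem : ∀ w ∈ bad, G.Adj x w ∧ imb f s(x, w) < k := by
    intro w hw
    have := hbadsub hw
    rw [hbadA, mem_filter, hNadj] at this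
    exact this
  have hbadsum : ∑ w ∈ bad, imb f s(x, w) ≤ ∑ w ∈ badA, min k (imb f s(x, w)) := by
    have h1 : ∑ w ∈ bad, imb f s(x, w) = ∑ w ∈ bad, min k (imb f s(x, w)) := by
      refine sum_congr rfl fun w hw => ?_
      have := (hbadmem w hw).2
      omega
    rw [h1]
    exact sum_le_sum_of_subset hbadsub
  -- the lower bound for the degrees of the bad vertices
  set up := bad.filter (fun w => f x < f w) with hup
  have hdeg : bad.card * D + 2 * up.card ≤ ∑ w ∈ bad, (imb f s(x, w) + G.degree w) := by
    have h1 : bad.card * D + 2 * up.card = ∑ w ∈ bad, (D + if f x < f w then 2 else 0) := by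
      rw [sum_add_distrib, sum_const, smul_eq_mul, hup, card_filter, mul_sum]
      congr 1
      refine sum_congr rfl fun w _ => ?_
      split_ifs <;> rfl
    rw [h1]
    refine sum_le_sum fun w hw => ?_
    have h2 := hbadmem w hw
    have h3 := H2 x w0 w hxw h2.1
    have h4 := hG x w h2.1
    rw [imb_mk]
    split_ifs with h5 <;> omega
  have hB : ∑ e ∈ E0, (bad.filter (fun w => w ∈ e)).card + bad.card =
      ∑ w ∈ bad, G.degree w := by
    simp only [card_filter]
    rw [sum_comm, card_eq_sum_ones bad, ← sum_add_distrib]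
    refine sum_congr rfl fun w hw => ?_
    rw [← card_filter, ← card_inc G w]
    have hw' : G.Adj x w := (hbadmem w hw).1
    have : G.edgeFinset.filter (fun e => w ∈ e) =
        insert s(x, w) (E0.filter (fun e => w ∈ e)) := by
      ext e
      simp only [hE0, mem_filter, mem_insert, SimpleGraph.mem_edgeFinset]
      constructor
      · rintro ⟨he, hwe⟩
        by_cases hxe : x ∈ e
        · exact Or.inl ((Sym2.mem_and_mem_iff hw'.ne).1 ⟨hxe, hwe⟩)
        · exact Or.inr ⟨⟨he, hxe⟩, hwe⟩
      · rintro (rfl | h)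
        · exact ⟨hw', Sym2.mem_mk_right _ _⟩
        · exact ⟨h.1.1, h.2⟩
    rw [this, card_insert_of_notMem]
    simp [hE0]
  set be := bad.filter (fun w => Even (f w)) with hbe
  set bo := bad.filter (fun w => ¬ Even (f w)) with hbo
  set E1 := (be ×ˢ bo).image (fun p : V × V => s(p.1, p.2)) with hE1d
  have hcE1 : E1.card ≤ be.card * bo.card := by
    rw [← card_product]; exact card_image_le
  have hcb : be.card + bo.card = bad.card := card_filter_add_card_filter_not _
  set S2 := E0.filter (fun e => e ∈ S ∧ 2 ≤ (bad.filter (fun w => w ∈ e)).card) with hS2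
  have hc2 : ∀ u v : V, (bad.filter (fun w => w ∈ s(u, v))).card ≤ 2 := by
    intro u v
    refine le_trans (card_le_card (t := {u, v}) ?_) card_le_two
    intro w hw
    rw [mem_filter] at hw
    simpa using hw.2
  have hc1 : ∀ u v : V, 2 ≤ (bad.filter (fun w => w ∈ s(u, v))).card → u ∈ bad ∧ v ∈ bad := by
    intro u v h
    by_contra hb
    have c1 : (bad.filter (fun w => w ∈ s(u, v))).card ≤ 1 := by
      rw [card_le_one]
      intro a ha b hb'
      rw [mem_filter, Sym2.mem_iff] at ha hb'
      rcases ha with ⟨ha, rfl | rfl⟩ <;> rcases hb' with ⟨hb', rfl | rfl⟩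
      · rfl
      · exact absurd ⟨ha, hb'⟩ hb
      · exact absurd ⟨hb', ha⟩ hb
      · rfl
    omega
  have hpt : ∀ e ∈ E0, (bad.filter (fun w => w ∈ e)).card + (if e ∈ S then k - 1 else 0) ≤
      min k (imb f e) + (if e ∈ E1 then 1 else 0) +
        (if e ∈ S ∧ 2 ≤ (bad.filter (fun w => w ∈ e)).card then 1 else 0) := by
    intro e he
    induction e using Sym2.ind with
    | _ u v =>
      rw [hE0, mem_filter, SimpleGraph.mem_edgeFinset, SimpleGraph.mem_edgeSet] at he
      have huv := he.1
      have hd := hG u v huv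
      have hS' := hi s(u, v)
      have hc := hc2 u v
      have hcc := hc1 u v
      rw [imb_mk] at hS' ⊢
      generalize (bad.filter (fun w => w ∈ s(u, v))).card = cc at *
      by_cases hs : s(u, v) ∈ S
      · have h1 := hS' hs
        rw [if_pos hs]
        by_cases h2 : 2 ≤ cc
        · rw [if_pos (c := s(u, v) ∈ S ∧ 2 ≤ cc) ⟨hs, h2⟩]
          omega
        · omega
      · rw [if_neg hs]
        by_cases h2 : 2 ≤ cc
        · obtain ⟨hu, hv⟩ := hcc h2
          have hu' := hbadmem u hu
          have hv' := hbadmem v hv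
          rw [imb_mk] at hu' hv'
          have hxu := hG x u hu'.1
          by_cases h1 : (f u - f v).natAbs = 1
          · have : s(u, v) ∈ E1 := by
              rw [hE1d, mem_image]
              by_cases hev : Even (f u)
              · refine ⟨(u, v), ?_, rfl⟩
                refine mem_product.2 ⟨mem_filter.2 ⟨hu, hev⟩, mem_filter.2 ⟨hv, ?_⟩⟩
                rw [Int.even_iff] at *
                dsimp only
                omega
              · refine ⟨(v, u), ?_, Sym2.eq_swap⟩
                refine mem_product.2 ⟨mem_filter.2 ⟨hv, ?_⟩, mem_filter.2 ⟨hu, hev⟩⟩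
                rw [Int.even_iff] at *
                dsimp only
                omega
            rw [if_pos this]
            omega
          · omega
        · omega
  have hC := sum_le_sum hpt
  rw [sum_add_distrib, sum_add_distrib, sum_add_distrib, ← sum_filter, ← sum_filter,
    ← sum_filter, sum_const, sum_const, sum_const,
    smul_eq_mul, smul_eq_mul, smul_eq_mul, mul_one, mul_one, ← hS2] at hC
  set z := (E0.filter (fun e => e ∈ S)).card with hz
  have hz1 : z ≤ k := card_le_card fun e he => (mem_filter.1 he).2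
  have hz2 : k ≤ good.card + z := by
    have : S ⊆ good.image (fun w => s(x, w)) ∪ E0.filter (fun e => e ∈ S) := by
      intro e he
      rw [mem_union]
      by_cases hxe : x ∈ e
      · left
        have : e ∈ N.image (fun w => s(x, w)) := by
          rw [← hE1, mem_filter]; exact ⟨hS he, hxe⟩
        rw [mem_image] at this ⊢
        obtain ⟨w, hw, rfl⟩ := this
        refine ⟨w, ?_, rfl⟩
        rw [hgood, mem_filter]
        refine ⟨hw, ?_⟩
        have := hi _ he
        omega
      · right
        rw [mem_filter, hE0, mem_filter]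
        exact ⟨⟨hS he, hxe⟩, he⟩
    have h1 := (card_le_card this).trans (card_union_le _ _)
    have h2 : (good.image (fun w => s(x, w))).card ≤ good.card := card_image_le
    omega
  have hE1' : (E0.filter (fun e => e ∈ E1)).card ≤ E1.card :=
    card_le_card fun e he => (mem_filter.1 he).2
  obtain ⟨y, hy⟩ : ∃ y, D = k + 1 + y := ⟨D - k - 1, by omega⟩
  have hk2 : be.card + bo.card = 0 ∨ 2 ≤ k := by
    by_cases h : bad.card = 0
    · left; omega
    · right
      obtain ⟨w, hw⟩ := card_pos.1 (Nat.pos_of_ne_zero h)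
      have h1 := hbadmem w hw
      have h2 := hG x w h1.1
      have h3 := h1.2
      rw [imb_mk] at h3
      omega
  have hS2z : S2.card ≤ z := card_le_card fun e he => by
    rw [hS2, mem_filter] at he
    exact mem_filter.2 ⟨he.1, he.2.1⟩
  have hF : be.card * bo.card + S2.card ≤
      (be.card + bo.card) * y + (k - 1) * z + 2 * up.card := by
    rcases Nat.eq_zero_or_pos S2.card with h0 | h0
    · have := arith1 be.card bo.card y z k (by omega) hz1 hk2
      omega
    · have h1 := arith2 be.card bo.card y z k (by omega) hz1 hk2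
      have h2 : 1 ≤ up.card := by
        obtain ⟨e, he⟩ := card_pos.1 h0
        rw [hS2, mem_filter] at he
        induction e using Sym2.ind with
        | _ u v =>
          obtain ⟨-, he1, he2⟩ := he
          obtain ⟨hu, hv⟩ := hc1 u v he2
          have hu' := hbadmem u hu
          have hv' := hbadmem v hv
          have h3 := hi _ he1
          rw [imb_mk] at h3 hu' hv'
          refine card_pos.2 ?_
          by_cases h4 : f x < f u
          · exact ⟨u, mem_filter.2 ⟨hu, h4⟩⟩
          · refine ⟨v, mem_filter.2 ⟨hv, ?_⟩⟩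
            omega
      omega
  rw [hcb] at hF
  have e0 : bad.card + good.card = D := by omega
  have e1 : k * D = good.card * k + bad.card * k := by rw [← e0]; ring
  have e2 : bad.card * D = bad.card * k + bad.card + bad.card * y := by rw [hy]; ring
  rw [mul_comm z] at hC
  rw [sum_add_distrib] at hdeg
  omega

end

end Pool.Agent.KS6_80.IM
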