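import Pool.Agent.KS6_80.IM.A

/-!
# Imbalances of a labelling: parity and the Erdős–Gallai condition
-/

set_option autoImplicit false

namespace Pool.Agent.KS6_80.IM

open Finset Pool.Agent.H.MP_440a65_co

section
variable {V : Type} [Fintype V] [DecidableEq V] (G : SimpleGraph V) [DecidableRel G.Adj]
  (f : V → ℤ)

omit [Fintype V] [DecidableEq V] in
lemma cast_imb (u v : V) : ((imb f s(u, v) : ℕ) : ZMod 2) = (f u : ZMod 2) + (f v : ZMod 2) := by
  rw [imb_mk]
  have key : ∀ n : ℤ, ((n.natAbs : ℕ) : ZMod 2) = (n : ZMod 2) := by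
    intro n
    rcases Int.natAbs_eq n with h | h
    · conv_rhs => rw [h]
      simp
    · conv_rhs => rw [h]
      rw [Int.cast_neg, ZMod.neg_eq_self_mod_two]
      simp
  rw [key, Int.cast_sub, sub_eq_add_neg, ZMod.neg_eq_self_mod_two]

lemma sum_imb : ((∑ e ∈ G.edgeFinset, imb f e : ℕ) : ZMod 2) =
    ((∑ v, f v * (G.degree v : ℤ) : ℤ) : ZMod 2) := by
  have h1 : ∀ e ∈ G.edgeFinset,
      ((imb f e : ℕ) : ZMod 2) = ∑ w : V, (if w ∈ e then (f w : ZMod 2) else 0) := by
    intro e he
    induction e using Sym2.ind with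
    | _ u v =>
      have huv : u ≠ v := (SimpleGraph.mem_edgeFinset.1 he).ne
      rw [← sum_filter]
      have : univ.filter (fun w => w ∈ s(u, v)) = {u, v} := by
        ext w; simp
      rw [this, sum_pair huv, cast_imb]
  rw [Nat.cast_sum, sum_congr rfl h1, sum_comm, Int.cast_sum]
  refine sum_congr rfl fun w _ => ?_
  rw [← sum_filter, sum_const, card_inc, nsmul_eq_mul]
  push_cast
  ring

lemma even_iff' : Even (∑ e ∈ G.edgeFinset, imb f e) ↔
    Even (∑ v, f v * (G.degree v : ℤ)) := by
  rw [← ZMod.natCast_eq_zero_iff_even, sum_imb, ZMod.intCast_zmod_eq_zero_iff_dvd,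
    even_iff_two_dvd]
  norm_num

end

/-- The graph of the edges with different labels. -/
def diff {V : Type} (G : SimpleGraph V) (f : V → ℤ) : SimpleGraph V where
  Adj u v := G.Adj u v ∧ f u ≠ f v
  symm := ⟨fun _ _ h => ⟨h.1.symm, h.2.symm⟩⟩
  loopless := ⟨fun _ h => G.irrefl h.1⟩

lemma diff_adj {V : Type} (G : SimpleGraph V) (f : V → ℤ) (u v : V) :
    (diff G f).Adj u v ↔ G.Adj u v ∧ f u ≠ f v := Iff.rfl

/-- The theorem for labellings. -/
theorem labelled {V : Type} [Fintype V] (G : SimpleGraph V) (f : V → ℤ)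
    (h1 : ∀ u v, G.Adj u v → f u ≠ f v →
      f v - f u < ({w | G.Adj v w ∧ f v ≠ f w}.ncard : ℤ))
    (h2 : ∀ x u v, G.Adj x u → f x ≠ f u → G.Adj x v → f x ≠ f v →
      f v - f u < ({w | G.Adj v w ∧ f v ≠ f w}.ncard : ℤ)) :
    (∃ H : SimpleGraph G.edgeSet, ∀ (u v : V) (h : G.Adj u v),
      ((H.neighborSet ⟨s(u, v), h⟩).ncard : ℤ) = |f u - f v|) ↔
    Even (∑ v, f v * ((G.neighborSet v).ncard : ℤ)) := by
  classical
  have hdeg : ∀ v, ((G.neighborSet v).ncard : ℤ) = (G.degree v : ℤ) := by
    intro v
    rw [← G.card_neighborFinset_eq_degree, ← Set.ncard_coe_finset, G.coe_neighborFinset]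
  simp only [hdeg]
  have hsum : ∀ g : Sym2 V → ℕ, ∑ e : G.edgeSet, g e = ∑ e ∈ G.edgeFinset, g e := by
    intro g
    exact (sum_subtype G.edgeFinset (fun e => SimpleGraph.mem_edgeFinset) g).symm
  have hnb : ∀ (H : SimpleGraph G.edgeSet) (e : G.edgeSet),
      (H.neighborSet e).ncard = dg H e := by
    intro H e
    have : H.neighborSet e = (nb H e : Set G.edgeSet) := by
      ext w; simp [mem_nb]
    rw [this, Set.ncard_coe_finset]
    rfl
  have habs : ∀ u v : V, ((imb f s(u, v) : ℕ) : ℤ) = |f u - f v| := by
    intro u v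
    rw [imb_mk, Int.natCast_natAbs]
  constructor
  · rintro ⟨H, hH⟩
    rw [← even_iff' G f, ← hsum]
    have h3 := sum_dg_even H
    have h4 : ∀ e : G.edgeSet, dg H e = imb f e := by
      rintro ⟨e, he⟩
      induction e using Sym2.ind with
      | _ u v =>
        have := hH u v he
        rw [hnb, ← habs] at this
        exact_mod_cast this
    simp only [h4] at h3
    exact h3
  · intro hev
    rw [← even_iff' G f, ← hsum] at hev
    have hd' : ∀ v, ({w | G.Adj v w ∧ f v ≠ f w}.ncard : ℤ) = ((diff G f).degree v : ℤ) := by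
      intro v
      rw [← (diff G f).card_neighborFinset_eq_degree, ← Set.ncard_coe_finset,
        (diff G f).coe_neighborFinset]
      rfl
    simp only [hd'] at h1 h2
    obtain ⟨H, hH⟩ := erdos_gallai' (V := G.edgeSet) (fun e => imb f e) hev (by
      intro S hne hS
      obtain ⟨e0, he0, hmax⟩ := Finset.exists_max_image S (fun e => imb f e) hne
      have hk1 : 1 ≤ S.card := card_pos.2 hne
      -- the top end of the edge with the largest imbalance
      obtain ⟨x, w0, hxw, hlt, heq⟩ : ∃ x w0, (diff G f).Adj x w0 ∧ f w0 < f x ∧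
          imb f s(x, w0) = imb f e0 := by
        obtain ⟨e, he⟩ := e0
        induction e using Sym2.ind with
        | _ u v =>
          have h3 := hS _ he0
          have h4 : imb f s(u, v) = (f u - f v).natAbs := rfl
          have h3' : S.card ≤ imb f s(u, v) := h3
          have huv : G.Adj u v := he
          rcases lt_or_ge (f v) (f u) with h5 | h5
          · exact ⟨u, v, ⟨huv, by omega⟩, h5, rfl⟩
          · refine ⟨v, u, ⟨huv.symm, by omega⟩, by omega, ?_⟩
            rw [Sym2.eq_swap]
      have hc : (S.map (Function.Embedding.subtype _)).card = S.card := card_map _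
      have hm := main_ineq (diff G f) f (fun u v h => h.2)
        (fun u v h => h1 u v h.1 h.2) (fun x u v h h' => h2 x u v h.1 h.2 h'.1 h'.2)
        x w0 hxw hlt _ rfl (S.map (Function.Embedding.subtype _))
        (by
          intro e he
          rw [mem_map] at he
          obtain ⟨a, ha, rfl⟩ := he
          have h3 := hS a ha
          obtain ⟨e, he⟩ := a
          induction e using Sym2.ind with
          | _ u v =>
            have h3' : S.card ≤ imb f s(u, v) := h3
            rw [imb_mk] at h3'
            refine SimpleGraph.mem_edgeFinset.2 ?_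
            show (diff G f).Adj u v
            exact ⟨he, by omega⟩)
        (by rw [hc]; exact hk1)
        (by
          intro e he
          rw [mem_map] at he
          obtain ⟨a, ha, rfl⟩ := he
          rw [hc]; exact hS a ha)
        (by rw [hc, heq]; have := hS e0 he0; omega)
      rw [hc, heq] at hm
      have hsub : ∑ e ∈ (diff G f).edgeFinset, min S.card (imb f e) ≤
          ∑ e ∈ G.edgeFinset, min S.card (imb f e) := by
        refine sum_le_sum_of_subset fun e he => ?_
        rw [SimpleGraph.mem_edgeFinset] at he ⊢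
        induction e using Sym2.ind with
        | _ u v => exact he.1
      have hm' := hm.trans hsub
      rw [← hsum (fun e => min S.card (imb f e)), ← sum_add_sum_compl S] at hm'
      have h5 : ∑ e ∈ S, min S.card (imb f e) ≤ S.card * S.card := by
        rw [← smul_eq_mul, ← sum_const]
        exact sum_le_sum fun e _ => min_le_left _ _
      have h6 : ∑ e ∈ S, (imb f e + 1) ≤ S.card * (imb f e0 + 1) := by
        rw [← smul_eq_mul, ← sum_const]
        exact sum_le_sum fun e he => Nat.succ_le_succ (hmax e he)
      rw [sum_add_distrib, sum_const, smul_eq_mul, mul_one] at h6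
      have h7 : S.card * (S.card - 1) + S.card = S.card * S.card := by
        cases S.card with
        | zero => simp
        | succ n => simp; ring
      omega)
    refine ⟨H, fun u v h => ?_⟩
    rw [hnb, ← habs]
    exact_mod_cast hH ⟨s(u, v), h⟩

end Pool.Agent.KS6_80.IM
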